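import Pool.Agent.Helper10.TL.Polyc0
import Pool.Agent.Helper95.TL.FinAlg

namespace Pool.Agent.Helper10.TL

open Pool.Agent.Helper11.Gap

universe u

open scoped commutatorElement

/-- Block-integral triangular finitely generated groups are polycyclic. -/
theorem polycyclic_of_blocks {k : Type u} {G V ι : Type*} [Field k] [Group G] [AddCommGroup V]
    [Module k V] [FiniteDimensional k V] [Finite ι] (ρ : G →* Module.End k V)
    (hinj : Function.Injective ρ) (N : Subgroup G) (hfg : N.FG) (m : ℕ)
    (F : ℕ → Submodule k V) (c : ℕ → N →* k) (h0 : F 0 = ⊥) (hm : F m = ⊤)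
    (hmono : ∀ i, F i ≤ F (i + 1))
    (hfl : ∀ i, ∀ h : N, ∀ v ∈ F (i + 1), ρ h v - c i h • v ∈ F i)
    (W : ι → Submodule k V) (hW : ∀ j, ∀ n : N, ∀ v ∈ W j, ρ n v ∈ W j)
    (htop : (⨆ j, W j) = ⊤) (χ : ι → N →* k)
    (hint : ∀ j, ∀ i < m, ¬ W j ⊓ F (i + 1) ≤ F i →
      ∀ n : N, IsIntegral ℤ (c i n * χ j n⁻¹)) :
    Pool.Agent.Helper11.Gap.IsPolycyclic N := by
  classical
  set r : N →* Module.End k V := ρ.comp N.subtype with hr
  have hinj' : Function.Injective r := hinj.comp N.subtype_injective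
  have hinv : ∀ i, ∀ h : N, ∀ v ∈ F i, r h v ∈ F i := by
    intro i h v hv
    rcases Nat.eq_zero_or_pos i with rfl | hi
    · rw [h0, Submodule.mem_bot] at hv ⊢
      rw [hv, map_zero]
    · obtain ⟨i, rfl⟩ := Nat.exists_eq_add_of_lt hi
      rw [zero_add] at hv ⊢
      have h1 := hfl i h v hv
      have e : r h v = (ρ h v - c i h • v) + c i h • v := by
        rw [sub_add_cancel]; rfl
      rw [e]
      exact Submodule.add_mem _ (hmono i h1) (Submodule.smul_mem _ _ hv)
  have hW' : ∀ j, ∀ n : N, ∀ v ∈ W j, r n v ∈ W j := hW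
  have hN : Group.FG N := (Group.fg_iff_subgroup_fg N).2 hfg
  obtain ⟨X, hX⟩ := (Monoid.fg_def.1 ((Group.fg_iff_monoid_fg (G := N)).1 hN))
  let g : ∀ j, {x : N // x ∈ X} → Module.End k (W j) := fun j x => rj r W χ hW' j (x : N)
  let A : ∀ j, Subalgebra ℤ (Module.End k (W j)) := fun j => Algebra.adjoin ℤ (Set.range (g j))
  have hA : ∀ j n, rj r W χ hW' j n ∈ A j := by
    intro j n
    have hn : n ∈ Submonoid.closure (X : Set N) := by rw [hX]; trivial
    induction hn using Submonoid.closure_induction with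
    | mem x hx => exact Algebra.subset_adjoin ⟨⟨x, hx⟩, rfl⟩
    | one => rw [map_one]; exact Subalgebra.one_mem _
    | mul x y _ _ hx hy => rw [map_mul]; exact Subalgebra.mul_mem _ hx hy
  have hfin : ∀ j, Module.Finite ℤ (A j) := by
    intro j
    have hFin : Finite {x : N // x ∈ X} := inferInstance
    refine Pool.Agent.Helper95.TL.finite_adjoin_of_flag (g j) m (fun i => (F i).comap (W j).subtype)
      (fun i x => if W j ⊓ F (i + 1) ≤ F i then 1 else c i x * χ j (x : N)⁻¹) ?_ ?_ ?_ ?_ ?_
    · rw [eq_bot_iff]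
      intro v hv
      have : (v : V) ∈ F 0 := hv
      rw [h0, Submodule.mem_bot] at this
      rw [Submodule.mem_bot]
      exact Subtype.ext this
    · simp only [hm]
      rfl
    · intro i v hv
      exact hmono i hv
    · intro i x v hv
      have hv' : (v : V) ∈ F (i + 1) := hv
      change ((g j x v - _ • v : W j) : V) ∈ F i
      rw [Submodule.coe_sub, Submodule.coe_smul, rj_apply]
      have h1 := hfl i (x : N) v hv'
      split_ifs with hc
      · rw [one_smul]
        apply hc
        refine ⟨?_, ?_⟩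
        · exact Submodule.sub_mem _ (Submodule.smul_mem _ _ (hW' j _ _ v.2)) v.2
        · exact Submodule.sub_mem _ (Submodule.smul_mem _ _ (hinv _ _ _ hv')) hv'
      · have e : χ j (x : N)⁻¹ • r (x : N) (v : V) - (c i x * χ j (x : N)⁻¹) • (v : V) =
            χ j (x : N)⁻¹ • (ρ ((x : N) : G) (v : V) - c i (x : N) • (v : V)) := by
          rw [smul_sub, smul_smul, mul_comm (c i _)]
          rfl
        rw [e]
        exact Submodule.smul_mem _ _ h1
    · intro i hi x
      split_ifs with hc
      · exact isIntegral_one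
      · exact hint j i hi hc x
  have hcomm : ⁅(⊤ : Subgroup N), ⊤⁆ ≤ US r F hinv W χ 1 := by
    rw [Subgroup.commutator_le]
    intro a _ b _ j
    have hc : ∀ f : N →* k, f ⁅a, b⁆ = 1 := by
      intro f
      rw [commutatorElement_def]
      have h1 : f a * f a⁻¹ = 1 := by rw [← map_mul, mul_inv_cancel, map_one]
      have h2 : f b * f b⁻¹ = 1 := by rw [← map_mul, mul_inv_cancel, map_one]
      rw [map_mul, map_mul, map_mul]
      calc f a * f b * f a⁻¹ * f b⁻¹ = (f a * f a⁻¹) * (f b * f b⁻¹) := by ring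
        _ = 1 := by rw [h1, h2, mul_one]
    refine ⟨hc _, ?_⟩
    intro i v _ hv
    have := hfl i ⁅a, b⁆ v hv
    rw [hc, one_smul] at this
    exact this
  exact polycyclic_aux r F hinv W hW' χ A hN hinj' m h0 hm hmono htop hfin hA hcomm

end Pool.Agent.Helper10.TL
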