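import Mathlib
import Pool.Agent.Helper11.Gap.Polycyclic

/-!
# Block-integral triangular finitely generated groups are polycyclic
-/

namespace Pool.Agent.Helper10.TL

open Pool.Agent.Helper11.Gap

universe u

open scoped commutatorElement

/-- Finite generation of an extension with abelian finitely generated quotient. -/
theorem fg_of_hom {G : Type*} [Group G] {A B : Subgroup G} (hAB : A ≤ B) (hA : A.FG)
    {Q : Type*} [AddCommGroup Q] [Module.Finite ℤ Q] (φ : B →* Multiplicative Q)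
    (hker : ∀ b : B, φ b = 1 → (b : G) ∈ A) : B.FG := by
  classical
  have hr : φ.range.FG := by
    have h1 : (AddSubgroup.toIntSubmodule (Subgroup.toAddSubgroup' φ.range)).FG :=
      IsNoetherian.noetherian _
    rw [Submodule.fg_iff_addSubgroup_fg] at h1
    have h2 := (AddSubgroup.fg_iff_mul_fg _).1 h1
    exact h2
  obtain ⟨T, hT⟩ := hr
  have hex : ∀ t ∈ T, ∃ b : B, φ b = t := by
    intro t ht
    have : t ∈ φ.range := by
      rw [← hT]; exact Subgroup.subset_closure ht
    exact this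
  choose! f hf using hex
  have hS : (Subgroup.closure ((T.image f : Finset B) : Set B)).FG := ⟨_, rfl⟩
  have hmap : ((Subgroup.closure ((T.image f : Finset B) : Set B)).map B.subtype).FG := by
    refine ⟨(T.image f).image B.subtype, ?_⟩
    rw [Finset.coe_image, ← MonoidHom.map_closure]
  have hB : B = (Subgroup.closure ((T.image f : Finset B) : Set B)).map B.subtype ⊔ A := by
    apply le_antisymm
    · intro b hb
      have h1 : φ ⟨b, hb⟩ ∈ (Subgroup.closure ((T.image f : Finset B) : Set B)).map φ := by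
        rw [MonoidHom.map_closure, Finset.coe_image, Set.image_image]
        have : (fun x => φ (f x)) '' (T : Set (Multiplicative Q)) = T := by
          ext x
          constructor
          · rintro ⟨y, hy, rfl⟩
            simp only
            rw [hf y hy]; exact hy
          · intro hx
            exact ⟨x, hx, hf x hx⟩
        rw [this, hT]
        exact ⟨_, rfl⟩
      obtain ⟨c, hc, hcb⟩ := h1
      have h2 : ((c⁻¹ * ⟨b, hb⟩ : B) : G) ∈ A := by
        apply hker
        rw [map_mul, map_inv, hcb, inv_mul_cancel]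
      have h3 : b = (c : G) * ((c⁻¹ * ⟨b, hb⟩ : B) : G) := by
        simp
      rw [h3]
      exact Subgroup.mul_mem_sup ⟨c, hc, rfl⟩ h2
    · refine sup_le ?_ hAB
      rintro _ ⟨c, -, rfl⟩
      exact c.2
  rw [hB]
  exact Subgroup.FG.sup hmap hA

section

variable {k : Type u} {H V ι : Type*} [Field k] [Group H] [AddCommGroup V] [Module k V]
  (ρ : H →* Module.End k V) (F : ℕ → Submodule k V)
  (hinv : ∀ i, ∀ h : H, ∀ v ∈ F i, ρ h v ∈ F i)
  (W : ι → Submodule k V) (hW : ∀ j, ∀ n : H, ∀ v ∈ W j, ρ n v ∈ W j) (χ : ι → H →* k)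

theorem rho_inv_mul (h : H) (v : V) : ρ h⁻¹ (ρ h v) = v := by
  rw [← Module.End.mul_apply, ← map_mul, inv_mul_cancel, map_one, Module.End.one_apply]

theorem rho_mul_inv (h : H) (v : V) : ρ h (ρ h⁻¹ v) = v := by
  rw [← Module.End.mul_apply, ← map_mul, mul_inv_cancel, map_one, Module.End.one_apply]

/-- The unipotent groups. -/
def US (s : ℕ) : Subgroup H where
  carrier := {u | ∀ j, χ j u = 1 ∧ ∀ i, ∀ v ∈ W j, v ∈ F (i + s) → ρ u v - v ∈ F i}
  one_mem' := by
    intro j
    refine ⟨map_one _, ?_⟩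
    intro i v _ _
    rw [map_one, Module.End.one_apply, sub_self]
    exact Submodule.zero_mem _
  mul_mem' := by
    intro a b ha hb j
    refine ⟨?_, ?_⟩
    · rw [map_mul, (ha j).1, (hb j).1, mul_one]
    · intro i v hv hvF
      have e : ρ (a * b) v - v = ρ a (ρ b v - v) + (ρ a v - v) := by
        rw [map_mul, Module.End.mul_apply, map_sub]; abel
      rw [e]
      exact Submodule.add_mem _ (hinv _ _ _ ((hb j).2 i v hv hvF)) ((ha j).2 i v hv hvF)
  inv_mem' := by
    intro a ha j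
    refine ⟨?_, ?_⟩
    · have h1 : χ j a⁻¹ * χ j a = 1 := by
        rw [← map_mul, inv_mul_cancel, map_one]
      rw [(ha j).1, mul_one] at h1
      exact h1
    · intro i v hv hvF
      have e : ρ a⁻¹ v - v = - ρ a⁻¹ (ρ a v - v) := by
        rw [map_sub, rho_inv_mul]; abel
      rw [e]
      exact Submodule.neg_mem _ (hinv _ _ _ ((ha j).2 i v hv hvF))

theorem mem_US {s : ℕ} {u : H} : u ∈ US ρ F hinv W χ s ↔
    ∀ j, χ j u = 1 ∧ ∀ i, ∀ v ∈ W j, v ∈ F (i + s) → ρ u v - v ∈ F i := Iff.rfl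

theorem US_anti (hmono : ∀ i, F i ≤ F (i + 1)) (s : ℕ) :
    US ρ F hinv W χ (s + 1) ≤ US ρ F hinv W χ s := by
  intro u hu j
  refine ⟨(hu j).1, ?_⟩
  intro i v hv hvF
  exact (hu j).2 i v hv (hmono _ hvF)

theorem US_comm (hmono : ∀ i, F i ≤ F (i + 1))
    (hW : ∀ j, ∀ n : H, ∀ v ∈ W j, ρ n v ∈ W j) (s : ℕ) (hs : 1 ≤ s) :
    ⁅US ρ F hinv W χ s, US ρ F hinv W χ s⁆ ≤ US ρ F hinv W χ (s + 1) := by
  have hmono' : Monotone F := monotone_nat_of_le_succ hmono
  rw [Subgroup.commutator_le]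
  intro a ha b hb j
  have hχ : ∀ (x : H), χ j x = 1 → χ j x⁻¹ = 1 := by
    intro x hx
    have h1 : χ j x⁻¹ * χ j x = 1 := by
      rw [← map_mul, inv_mul_cancel, map_one]
    rw [hx, mul_one] at h1
    exact h1
  refine ⟨?_, ?_⟩
  · rw [commutatorElement_def, map_mul, map_mul, map_mul, (ha j).1, (hb j).1,
      hχ _ (ha j).1, hχ _ (hb j).1]
    simp
  · intro i v hv hvF
    set w := ρ (b * a)⁻¹ v with hw
    have hwW : w ∈ W j := hW _ _ _ hv
    have hwF : w ∈ F (i + (s + 1)) := hinv _ _ _ hvF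
    have e1 : ρ ⁅a, b⁆ v = ρ a (ρ b w) := by
      rw [hw, ← Module.End.mul_apply, ← Module.End.mul_apply, ← map_mul, ← map_mul,
        commutatorElement_def]
      congr 2
      group
    have e2 : v = ρ b (ρ a w) := by
      rw [← Module.End.mul_apply, ← map_mul, hw, rho_mul_inv]
    have e3 : ρ ⁅a, b⁆ v - v = (ρ a (ρ b w - w) - (ρ b w - w)) -
        (ρ b (ρ a w - w) - (ρ a w - w)) := by
      rw [e1]
      conv_lhs => rw [e2]
      rw [map_sub, map_sub]
      abel
    rw [e3]
    have h1 : ρ b w - w ∈ F (i + 1) := (hb j).2 (i + 1) w hwW (by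
      have : i + 1 + s = i + (s + 1) := by ring
      rw [this]; exact hwF)
    have h2 : ρ a w - w ∈ F (i + 1) := (ha j).2 (i + 1) w hwW (by
      have : i + 1 + s = i + (s + 1) := by ring
      rw [this]; exact hwF)
    have h3 : ρ b w - w ∈ W j := Submodule.sub_mem _ (hW _ _ _ hwW) hwW
    have h4 : ρ a w - w ∈ W j := Submodule.sub_mem _ (hW _ _ _ hwW) hwW
    refine Submodule.sub_mem _ ?_ ?_
    · exact (ha j).2 i _ h3 (hmono' (by omega) h1)
    · exact (hb j).2 i _ h4 (hmono' (by omega) h2)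

theorem US_bot (hinj : Function.Injective ρ) (m : ℕ) (h0 : F 0 = ⊥) (hm : F m = ⊤)
    (htop : (⨆ j, W j) = ⊤) : US ρ F hinv W χ m = ⊥ := by
  rw [eq_bot_iff]
  intro u hu
  rw [Subgroup.mem_bot]
  apply hinj
  rw [map_one]
  have hle : (⨆ j, W j) ≤ LinearMap.ker (ρ u - 1) := by
    refine iSup_le ?_
    intro j v hv
    rw [LinearMap.mem_ker, LinearMap.sub_apply, Module.End.one_apply]
    have := (hu j).2 0 v hv (by rw [zero_add, hm]; trivial)
    rw [h0, Submodule.mem_bot] at this
    exact this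
  rw [htop, top_le_iff, LinearMap.ker_eq_top, sub_eq_zero] at hle
  exact hle

/-- The twisted restriction to a block. -/
def rj (hW : ∀ j, ∀ n : H, ∀ v ∈ W j, ρ n v ∈ W j) (j : ι) : H →* Module.End k (W j) where
  toFun n := χ j n⁻¹ • (ρ n).restrict (hW j n)
  map_one' := by
    ext v
    simp
  map_mul' := by
    intro a b
    ext v
    simp only [LinearMap.smul_apply, Module.End.mul_apply, LinearMap.coe_restrict_apply,
      Submodule.coe_smul, map_mul, map_smul, mul_inv_rev, smul_smul]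

theorem rj_apply (j : ι) (n : H) (v : W j) :
    ((rj ρ W χ hW j n v : W j) : V) = χ j n⁻¹ • ρ n v := by
  simp [rj]

variable (A : ∀ j, Subalgebra ℤ (Module.End k (W j)))

/-- The product of the algebras. -/
def PP : Type _ := ∀ j, A j

instance : AddCommGroup (PP W A) := inferInstanceAs (AddCommGroup (∀ j, A j))

/-- The group of tuples of elements that shift the filtration by `s`. -/
def KS (s : ℕ) : AddSubgroup (PP W A) where
  carrier := {x | ∀ j, ∀ i, ∀ v : W j, (v : V) ∈ F (i + s) → (((x j : Module.End k (W j)) v : W j) : V) ∈ F i}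
  zero_mem' := by
    intro j i v _
    have : (((0 : PP W A) j : A j) : Module.End k (W j)) = 0 := rfl
    rw [this]
    simp
  add_mem' := by
    intro x y hx hy j i v hv
    have e : (((x + y : PP W A) j : A j) : Module.End k (W j)) =
      (x j : Module.End k (W j)) + (y j : Module.End k (W j)) := rfl
    rw [e]
    exact Submodule.add_mem _ (hx j i v hv) (hy j i v hv)
  neg_mem' := by
    intro x hx j i v hv
    have e : (((-x : PP W A) j : A j) : Module.End k (W j)) =
      -(x j : Module.End k (W j)) := rfl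
    rw [e]
    exact Submodule.neg_mem _ (hx j i v hv)

theorem finite_quot [Finite ι] (hfin : ∀ j, Module.Finite ℤ (A j)) (s : ℕ) :
    Module.Finite ℤ ((PP W A) ⧸ KS F W A s) := by
  have h1 : Module.Finite ℤ (∀ j, A j) := Module.Finite.pi
  have h2 : Module.Finite ℤ (PP W A) := h1
  let f : PP W A →+ ((PP W A) ⧸ KS F W A s) := QuotientAddGroup.mk' (KS F W A s)
  exact Module.Finite.of_surjective f.toIntLinearMap (QuotientAddGroup.mk'_surjective _)

theorem rj_sub_one (j : ι) (u : H) (hu : χ j u = 1) (v : W j) :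
    (((rj ρ W χ hW j u - 1 : Module.End k (W j)) v : W j) : V) = ρ u v - v := by
  have h1 : χ j u⁻¹ = 1 := by
    have h1 : χ j u⁻¹ * χ j u = 1 := by
      rw [← map_mul, inv_mul_cancel, map_one]
    rw [hu, mul_one] at h1
    exact h1
  rw [LinearMap.sub_apply, Module.End.one_apply, Submodule.coe_sub, rj_apply, h1, one_smul]

/-- The tuple `(ρ_j(u) - 1)_j`. -/
def xt (hA : ∀ j n, rj ρ W χ hW j n ∈ A j) (u : H) : PP W A :=
  fun j => ⟨rj ρ W χ hW j u - 1, Subalgebra.sub_mem _ (hA j u) (Subalgebra.one_mem _)⟩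

/-- The homomorphism to the abelian group. -/
def ph (hA : ∀ j n, rj ρ W χ hW j n ∈ A j) (hmono : ∀ i, F i ≤ F (i + 1)) (s : ℕ) (hs : 1 ≤ s) :
    US ρ F hinv W χ s →* Multiplicative ((PP W A) ⧸ KS F W A (s + 1)) where
  toFun u := Multiplicative.ofAdd (QuotientAddGroup.mk (xt ρ W hW χ A hA u))
  map_one' := by
    have : xt ρ W hW χ A hA ((1 : US ρ F hinv W χ s) : H) = 0 := by
      funext j
      apply Subtype.ext
      change rj ρ W χ hW j ((1 : US ρ F hinv W χ s) : H) - 1 = 0
      rw [Subgroup.coe_one, map_one, sub_self]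
    rw [this, QuotientAddGroup.mk_zero]
    rfl
  map_mul' := by
    intro a b
    rw [← ofAdd_add, ← QuotientAddGroup.mk_add]
    congr 1
    rw [QuotientAddGroup.eq, ← neg_mem_iff]
    intro j i v hv
    have hmono' : Monotone F := monotone_nat_of_le_succ hmono
    have e : ((-(-xt ρ W hW χ A hA ((a * b : US ρ F hinv W χ s) : H) +
        (xt ρ W hW χ A hA (a : H) + xt ρ W hW χ A hA (b : H)))) j : Module.End k (W j)) =
        (rj ρ W χ hW j a - 1) * (rj ρ W χ hW j b - 1) := by
      change -(-(rj ρ W χ hW j ((a * b : US ρ F hinv W χ s) : H) - 1) +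
        ((rj ρ W χ hW j (a : H) - 1) + (rj ρ W χ hW j (b : H) - 1))) = _
      rw [Subgroup.coe_mul, map_mul, mul_sub, sub_mul, mul_one, one_mul]
      abel
    rw [e, Module.End.mul_apply, rj_sub_one ρ W hW χ j a (a.2 j).1]
    have h1 := rj_sub_one ρ W hW χ j b (b.2 j).1 v
    have h2 : ((((rj ρ W χ hW j b - 1 : Module.End k (W j)) v : W j) : V)) ∈ F (i + 1) := by
      rw [h1]
      refine (b.2 j).2 (i + 1) _ v.2 ?_
      have : i + 1 + s = i + (s + 1) := by ring
      rw [this]; exact hv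
    exact (a.2 j).2 i _ (Subtype.mem _) (hmono' (by omega) h2)

theorem ph_ker (hA : ∀ j n, rj ρ W χ hW j n ∈ A j) (hmono : ∀ i, F i ≤ F (i + 1)) (s : ℕ)
    (hs : 1 ≤ s) (u : US ρ F hinv W χ s) (hu : ph ρ F hinv W hW χ A hA hmono s hs u = 1) :
    (u : H) ∈ US ρ F hinv W χ (s + 1) := by
  have h1 : (QuotientAddGroup.mk (xt ρ W hW χ A hA u) :
      (PP W A) ⧸ KS F W A (s + 1)) = 0 := hu
  rw [QuotientAddGroup.eq_zero_iff] at h1
  intro j
  refine ⟨(u.2 j).1, ?_⟩
  intro i v hv hvF
  have h2 := h1 j i ⟨v, hv⟩ hvF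
  have h3 := rj_sub_one ρ W hW χ j u (u.2 j).1 ⟨v, hv⟩
  simp only [xt] at h2
  rw [h3] at h2
  exact h2

theorem polycyclic_aux [Finite ι] (hfg : Group.FG H) (hinj : Function.Injective ρ)
    (m : ℕ) (h0 : F 0 = ⊥) (hm : F m = ⊤) (hmono : ∀ i, F i ≤ F (i + 1))
    (htop : (⨆ j, W j) = ⊤) (hfin : ∀ j, Module.Finite ℤ (A j))
    (hA : ∀ j n, rj ρ W χ hW j n ∈ A j)
    (hcomm : ⁅(⊤ : Subgroup H), ⊤⁆ ≤ US ρ F hinv W χ 1) : IsPolycyclic H := by
  have hm' : F (m + 1) = ⊤ := by
    rw [eq_top_iff, ← hm]; exact hmono m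
  have hfin' := finite_quot F W A hfin
  have key : ∀ d : ℕ, d ≤ m → HasChain (US ρ F hinv W χ (m + 1 - d)) ∧
      (US ρ F hinv W χ (m + 1 - d)).FG := by
    intro d
    induction d with
    | zero =>
      intro _
      have h1 : US ρ F hinv W χ (m + 1 - 0) = ⊥ :=
        US_bot ρ F hinv W χ hinj (m + 1) h0 hm' htop
      rw [h1]
      exact ⟨hasChain_bot, Subgroup.FG.bot⟩
    | succ d ih =>
      intro hd
      obtain ⟨ih1, ih2⟩ := ih (by omega)
      have hs : 1 ≤ m + 1 - (d + 1) := by omega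
      have e : m + 1 - d = (m + 1 - (d + 1)) + 1 := by omega
      rw [e] at ih1 ih2
      have hfgs : (US ρ F hinv W χ (m + 1 - (d + 1))).FG :=
        fg_of_hom (US_anti ρ F hinv W χ hmono _) ih2
          (ph ρ F hinv W hW χ A hA hmono _ hs)
          (fun b hb => ph_ker ρ F hinv W hW χ A hA hmono _ hs b hb)
      exact ⟨ih1.extend (US_anti ρ F hinv W χ hmono _) hfgs
        (US_comm ρ F hinv W χ hmono hW _ hs), hfgs⟩
  obtain ⟨h1, -⟩ := key m le_rfl
  have e : m + 1 - m = 1 := by omega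
  rw [e] at h1
  have := h1.extend le_top (Group.fg_def.1 hfg) hcomm
  exact this

end

end Pool.Agent.Helper10.TL
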